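import Mathlib

/-!
# Bounded almost everywhere continuous functions lie between continuous functions
-/

set_option autoImplicit false

open Filter Topology MeasureTheory

noncomputable section

namespace Pool.Agent.TH635.FB

section env

variable {X : Type*} [PseudoMetricSpace X]

/-- Lipschitz lower envelopes. -/
def low (f : X → ℝ) (k : ℕ) (x : X) : ℝ := ⨅ y, (f y + k * dist x y)

variable {f : X → ℝ} {C : ℝ}

theorem low_bdd (hb : ∀ x, |f x| ≤ C) (k : ℕ) (x : X) :
    BddBelow (Set.range fun y => f y + k * dist x y) := by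
  refine ⟨-C, ?_⟩
  rintro _ ⟨y, rfl⟩
  have h1 := (abs_le.mp (hb y)).1
  have h2 : 0 ≤ (k : ℝ) * dist x y := by positivity
  show -C ≤ f y + k * dist x y
  linarith

theorem low_le (hb : ∀ x, |f x| ≤ C) (k : ℕ) (x : X) : low f k x ≤ f x := by
  have h := ciInf_le (low_bdd hb k x) x
  rw [dist_self, mul_zero, add_zero] at h
  exact h

theorem le_low (hb : ∀ x, |f x| ≤ C) (k : ℕ) (x : X) : -C ≤ low f k x := by
  have : Nonempty X := ⟨x⟩
  apply le_ciInf
  intro y
  have h1 := (abs_le.mp (hb y)).1
  have h2 : 0 ≤ (k : ℝ) * dist x y := by positivity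
  linarith

theorem low_cont (hb : ∀ x, |f x| ≤ C) (k : ℕ) : Continuous (low f k) := by
  have h : LipschitzWith (k : NNReal) (low f k) := by
    apply LipschitzWith.of_le_add_mul
    intro x y
    have : Nonempty X := ⟨x⟩
    have h1 : low f k x - k * dist x y ≤ low f k y := by
      apply le_ciInf
      intro z
      have h2 := ciInf_le (low_bdd hb k x) z
      have h3 : dist x z ≤ dist x y + dist y z := dist_triangle _ _ _
      have h4 : (k : ℝ) * dist x z ≤ k * (dist x y + dist y z) :=
        mul_le_mul_of_nonneg_left h3 (by positivity)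
      show low f k x - k * dist x y ≤ f z + k * dist y z
      have h5 : low f k x ≤ f z + k * dist x z := h2
      linarith
    have e : ((k : NNReal) : ℝ) = k := by simp
    rw [e]
    linarith
  exact h.continuous

theorem low_tendsto (hb : ∀ x, |f x| ≤ C) {x : X} (hx : ContinuousAt f x) :
    Tendsto (fun k => low f k x) atTop (𝓝 (f x)) := by
  rw [Metric.tendsto_atTop]
  intro η hη
  obtain ⟨r, hr, hfr⟩ := Metric.continuousAt_iff.mp hx (η / 2) (by positivity)
  obtain ⟨k₀, hk₀⟩ := exists_nat_gt (2 * C / r)
  refine ⟨k₀, fun k hk => ?_⟩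
  have : Nonempty X := ⟨x⟩
  have h1 : f x - η / 2 ≤ low f k x := by
    apply le_ciInf
    intro y
    rcases lt_or_ge (dist y x) r with h | h
    · have h2 := hfr h
      rw [Real.dist_eq, abs_lt] at h2
      have h3 : 0 ≤ (k : ℝ) * dist x y := by positivity
      linarith [h2.1]
    · have h2 : 2 * C / r < k := hk₀.trans_le (by exact_mod_cast hk)
      rw [div_lt_iff₀ hr] at h2
      have h3 : (k : ℝ) * r ≤ k * dist x y := by
        rw [dist_comm]
        exact mul_le_mul_of_nonneg_left h (by positivity)
      have h4 := (abs_le.mp (hb y)).1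
      have h5 := (abs_le.mp (hb x)).2
      linarith
  have h2 := low_le hb k x
  rw [Real.dist_eq, abs_lt]
  constructor <;> linarith

end env

/-- A bounded real function continuous almost everywhere lies between two continuous functions
whose integrals are close. -/
theorem riem_real {X : Type*} [MetricSpace X] [CompactSpace X] [MeasurableSpace X] [BorelSpace X]
    (μ : Measure X) [IsProbabilityMeasure μ] {f : X → ℝ} {C : ℝ} (hb : ∀ x, |f x| ≤ C)
    (hc : ∀ᵐ x ∂μ, ContinuousAt f x) {ε : ℝ} (hε : 0 < ε) :
    ∃ u K : X → ℝ, Continuous u ∧ Continuous K ∧ (∀ x, |f x - u x| ≤ K x) ∧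
      ∫ x, K x ∂μ ≤ ε := by
  have hb' : ∀ x, |(-f) x| ≤ C := fun x => by
    rw [Pi.neg_apply, abs_neg]
    exact hb x
  let K : ℕ → X → ℝ := fun k x => -low (-f) k x - low f k x
  have hKc : ∀ k, Continuous (K k) := fun k => ((low_cont hb' k).neg).sub (low_cont hb k)
  have hfK : ∀ k x, |f x - low f k x| ≤ K k x := by
    intro k x
    have h1 := low_le hb k x
    have h2 := low_le hb' k x
    rw [Pi.neg_apply] at h2
    rw [abs_of_nonneg (by linarith)]
    show f x - low f k x ≤ -low (-f) k x - low f k x
    linarith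
  have hKb : ∀ k x, ‖K k x‖ ≤ 2 * C := by
    intro k x
    rw [Real.norm_eq_abs, abs_of_nonneg ((abs_nonneg _).trans (hfK k x))]
    have h1 := le_low hb k x
    have h2 := le_low hb' k x
    show -low (-f) k x - low f k x ≤ 2 * C
    linarith
  have hlim : ∀ᵐ x ∂μ, Tendsto (fun k => K k x) atTop (𝓝 0) := by
    filter_upwards [hc] with x hx
    have h1 := (low_tendsto hb' hx.neg).neg.sub (low_tendsto hb hx)
    have e : -(-f) x - f x = 0 := by simp
    rw [e] at h1
    exact h1
  have hint := tendsto_integral_filter_of_dominated_convergence (μ := μ) (l := atTop)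
    (fun _ => 2 * C) (Eventually.of_forall fun k => (hKc k).aestronglyMeasurable)
    (Eventually.of_forall fun k => Eventually.of_forall fun x => hKb k x)
    (integrable_const _) hlim
  rw [integral_zero] at hint
  obtain ⟨k, hk⟩ := ((tendsto_order.mp hint).2 ε hε).exists
  exact ⟨low f k, K k, low_cont hb k, hKc k, hfK k, hk.le⟩

/-- The same for complex functions. -/
theorem riem_complex {X : Type*} [MetricSpace X] [CompactSpace X] [MeasurableSpace X]
    [BorelSpace X] (μ : Measure X) [IsProbabilityMeasure μ] {f : X → ℂ} {C : ℝ}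
    (hb : ∀ x, ‖f x‖ ≤ C) (hc : ∀ᵐ x ∂μ, ContinuousAt f x) {ε : ℝ} (hε : 0 < ε) :
    ∃ (u : X → ℂ) (K : X → ℝ), Continuous u ∧ Continuous K ∧ (∀ x, ‖f x - u x‖ ≤ K x) ∧
      ∫ x, K x ∂μ ≤ ε := by
  obtain ⟨u, K, hu, hK, huK, hKi⟩ := riem_real μ (f := fun x => (f x).re) (C := C)
    (fun x => (Complex.abs_re_le_norm _).trans (hb x))
    (hc.mono fun x hx => Complex.continuous_re.continuousAt.comp hx) (half_pos hε)
  obtain ⟨v, K', hv, hK', hvK, hKi'⟩ := riem_real μ (f := fun x => (f x).im) (C := C)
    (fun x => (Complex.abs_im_le_norm _).trans (hb x))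
    (hc.mono fun x hx => Complex.continuous_im.continuousAt.comp hx) (half_pos hε)
  have hcint : ∀ g : X → ℝ, Continuous g → Integrable g μ := by
    intro g hg
    obtain ⟨B, hB⟩ := isCompact_univ.exists_bound_of_continuousOn hg.continuousOn
    exact Integrable.mono' (integrable_const B) hg.aestronglyMeasurable
      (Eventually.of_forall fun x => hB x (Set.mem_univ x))
  refine ⟨fun x => (u x : ℂ) + (v x : ℂ) * Complex.I, fun x => K x + K' x, ?_, hK.add hK', ?_, ?_⟩
  · exact (Complex.continuous_ofReal.comp hu).add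
      ((Complex.continuous_ofReal.comp hv).mul continuous_const)
  · intro x
    refine (Complex.norm_le_abs_re_add_abs_im _).trans (add_le_add ?_ ?_)
    · simpa using huK x
    · simpa using hvK x
  · rw [integral_add (hcint K hK) (hcint K' hK')]
    linarith

end Pool.Agent.TH635.FB
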