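import Pool.Agent.TH635.FB.Tor
import Pool.Agent.TH635.FB.Riem
import Pool.Agent.H165R3.BPE

/-!
# Polynomial toral orbits: the main theorem
-/

set_option autoImplicit false

open Filter Topology MeasureTheory UnitAddTorus Polynomial

noncomputable section

namespace Pool.Agent.TH635.FB

open Pool.Agent.H922R3.TA (toralMap haarT)

variable {d D m : ℕ}

theorem orb_mp (A : Fin D → (Matrix (Fin d) (Fin d) ℤ)ˣ) (P : Fin D → Fin m → ℤ[X])
    (j : Fin m) (n : ℤ) : MeasurePreserving (orb A P j n) (haarT d) (haarT d) :=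
  toralAut_mp _

/-- bounded functions -/
theorem main_bdd (A : Fin D → (Matrix (Fin d) (Fin d) ℤ)ˣ) (P : Fin D → Fin m → ℤ[X])
    {F : Fin m → UnitAddTorus (Fin d) → ℂ} (hb : ∀ j, Bd (F j))
    (hF : ∀ j, (∀ᵐ x ∂(haarT d), ContinuousAt (F j) x) ∨
      (Measurable (F j) ∧ SingleGood (haarT d) (orb A P j))) :
    Cv (haarT d) (orb A P) F := by
  have hbm : ∀ p : C(UnitAddTorus (Fin d), ℂ), Pool.Agent.H922R3.TA.BM p := fun p =>
    ⟨p.continuous.measurable, ‖p‖, fun x => ContinuousMap.norm_coe_le_norm p x⟩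
  have hcb : ∀ u : UnitAddTorus (Fin d) → ℂ, Continuous u → Bd u := fun u hu =>
    ⟨‖(⟨u, hu⟩ : C(UnitAddTorus (Fin d), ℂ))‖, fun x =>
      ContinuousMap.norm_coe_le_norm (⟨u, hu⟩ : C(UnitAddTorus (Fin d), ℂ)) x⟩
  have hcr : ∀ u : UnitAddTorus (Fin d) → ℝ, Continuous u → ∃ C, ∀ x, |u x| ≤ C := fun u hu =>
    ⟨‖(⟨u, hu⟩ : C(UnitAddTorus (Fin d), ℝ))‖, fun x =>
      ContinuousMap.norm_coe_le_norm (⟨u, hu⟩ : C(UnitAddTorus (Fin d), ℝ)) x⟩
  have key : ∀ S : Finset (Fin m), ∀ F : Fin m → UnitAddTorus (Fin d) → ℂ, (∀ j, Bd (F j)) →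
      (∀ j ∈ S, (∀ᵐ x ∂(haarT d), ContinuousAt (F j) x) ∨
        (Measurable (F j) ∧ SingleGood (haarT d) (orb A P j))) →
      (∀ j, j ∉ S → Continuous (F j)) → Cv (haarT d) (orb A P) F := by
    intro S
    induction S using Finset.induction_on with
    | empty =>
      intro F _ _ h
      exact Cv_cont A P fun j => h j (Finset.notMem_empty j)
    | insert j S hj ih =>
      intro F hb hg hc
      have hup : ∀ u : UnitAddTorus (Fin d) → ℂ, Continuous u →
          Cv (haarT d) (orb A P) (Function.update F j u) := by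
        intro u hu
        apply ih
        · intro l
          by_cases hl : l = j
          · subst hl
            rw [Function.update_self]
            exact hcb u hu
          · rw [Function.update_of_ne hl]
            exact hb l
        · intro l hl
          have hlj : l ≠ j := fun h => hj (h ▸ hl)
          rw [Function.update_of_ne hlj]
          exact hg l (Finset.mem_insert_of_mem hl)
        · intro l hl
          by_cases hlj : l = j
          · subst hlj
            rw [Function.update_self]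
            exact hu
          · rw [Function.update_of_ne hlj]
            exact hc l (by
              rw [Finset.mem_insert]
              tauto)
      rw [← Function.update_eq_self j F]
      rcases hg j (Finset.mem_insert_self j S) with h | ⟨hm, hs⟩
      · apply Cv_closed' hb (orb_mp A P j)
        intro ε hε
        obtain ⟨C, hC⟩ := hb j
        obtain ⟨u, K, hu, hK, huK, hKi⟩ := riem_complex (haarT d) hC h hε
        exact ⟨u, K, hK.measurable, hcr K hK, huK, hKi, single_cont A P j hK, hup u hu⟩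
      · apply Cv_closed hb (orb_mp A P j) hs ⟨hm, hb j⟩
        intro ε hε
        obtain ⟨p, _, hpf⟩ := Pool.Agent.H922R3.TA.trig_dense (f := F j) ⟨hm, hb j⟩ hε
        exact ⟨p, hbm p, hpf, hup p p.continuous⟩
  exact key Finset.univ F hb (fun j _ => hF j) fun j hj => absurd (Finset.mem_univ j) hj

/-- real version -/
theorem avr_of_sides {u : ℤ → ℝ} {L M : ℝ}
    (h1 : Tendsto (fun N : ℕ => (N : ℝ)⁻¹ * ∑ n ∈ Finset.range N, u (n : ℤ)) atTop (𝓝 L))
    (h2 : Tendsto (fun N : ℕ => (N : ℝ)⁻¹ * ∑ n ∈ Finset.range N, u (-(n : ℤ))) atTop (𝓝 M)) :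
    Tendsto (fun N => avr N u) atTop (𝓝 ((L + M) / 2)) := by
  have c1 := (Complex.continuous_ofReal.tendsto _).comp h1
  have c2 := (Complex.continuous_ofReal.tendsto _).comp h2
  have h := av_of_sides (u := fun n => (u n : ℂ)) le_rfl
    (c1.congr fun N => by
      simp only [Function.comp_apply]
      push_cast
      rfl)
    (c2.congr fun N => by
      simp only [Function.comp_apply]
      push_cast
      rfl)
  have h3 := (Complex.continuous_re.tendsto _).comp h
  have e0 : (((L : ℂ) + M) / 2).re = (L + M) / 2 := by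
    have : ((L : ℂ) + M) / 2 = (((L + M) / 2 : ℝ) : ℂ) := by push_cast; rfl
    rw [this, Complex.ofReal_re]
  rw [e0] at h3
  refine h3.congr fun N => ?_
  simp only [Function.comp_apply, av, avr]
  have e : ((2 * N + 1 : ℕ) : ℂ)⁻¹ = (((2 * N + 1 : ℕ) : ℝ)⁻¹ : ℝ) := by push_cast; rfl
  rw [e, ← Complex.ofReal_sum, ← Complex.ofReal_mul, Complex.ofReal_re]

/-- Birkhoff's theorem for `V^n W`. -/
theorem single_linear (V W : (Matrix (Fin d) (Fin d) ℤ)ˣ) :
    SingleGood (haarT d) fun n => toralAut (V ^ n * W) := by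
  rintro G hG ⟨C, hC⟩
  have b1 := Pool.Agent.H165R3.BPE.birkhoff (toralAut_mp V) G hG C hC
  have b2 := Pool.Agent.H165R3.BPE.birkhoff (toralAut_mp V⁻¹) G hG C hC
  have c1 := (toralAut_mp W).quasiMeasurePreserving.ae b1
  have c2 := (toralAut_mp W).quasiMeasurePreserving.ae b2
  filter_upwards [c1, c2] with x h1 h2
  refine ⟨_, avr_of_sides (u := fun n => G (toralAut (V ^ n * W) x))
    (h1.congr fun N => ?_) (h2.congr fun N => ?_)⟩
  · congr 1
    apply Finset.sum_congr rfl
    intro k _
    rw [zpow_natCast, map_mul, map_pow, Equiv.Perm.mul_apply, Equiv.Perm.iterate_eq_pow]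
  · congr 1
    apply Finset.sum_congr rfl
    intro k _
    rw [zpow_neg, zpow_natCast, ← inv_pow, map_mul, map_pow, Equiv.Perm.mul_apply,
      Equiv.Perm.iterate_eq_pow]

/-- truncation -/
def clampC (C : ℝ) (z : ℂ) : ℂ :=
  ((max (-C) (min C z.re) : ℝ) : ℂ) + ((max (-C) (min C z.im) : ℝ) : ℂ) * Complex.I

theorem clampC_cont (C : ℝ) : Continuous (clampC C) := by
  unfold clampC
  exact (Complex.continuous_ofReal.comp (continuous_const.max
    (continuous_const.min Complex.continuous_re))).add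
    ((Complex.continuous_ofReal.comp (continuous_const.max
    (continuous_const.min Complex.continuous_im))).mul continuous_const)

theorem clampC_bd {C : ℝ} (hC : 0 ≤ C) (z : ℂ) : ‖clampC C z‖ ≤ C + C := by
  refine (Complex.norm_le_abs_re_add_abs_im _).trans (add_le_add ?_ ?_)
  · have e : (clampC C z).re = max (-C) (min C z.re) := by simp [clampC]
    rw [e, abs_le]
    exact ⟨le_max_left _ _, max_le (by linarith) (min_le_left _ _)⟩
  · have e : (clampC C z).im = max (-C) (min C z.im) := by simp [clampC]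
    rw [e, abs_le]
    exact ⟨le_max_left _ _, max_le (by linarith) (min_le_left _ _)⟩

theorem clampC_eq {C : ℝ} {z : ℂ} (h : ‖z‖ ≤ C) : clampC C z = z := by
  have h1 := abs_le.mp ((Complex.abs_re_le_norm z).trans h)
  have h2 := abs_le.mp ((Complex.abs_im_le_norm z).trans h)
  rw [clampC, min_eq_right h1.2, max_eq_right h1.1, min_eq_right h2.2, max_eq_right h2.1]
  exact Complex.re_add_im z

theorem mats_aut (A : Fin D → (Matrix (Fin d) (Fin d) ℤ)ˣ) (P : Fin D → Fin m → ℤ[X])
    (j : Fin m) (n : ℤ) :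
    toralAut (mats A P j n) =
      (List.ofFn fun i => toralAut (A i) ^ ((P i j).eval n)).prod := by
  rw [mats, map_list_prod, List.map_ofFn]
  congr 2
  funext i
  rw [Function.comp_apply, map_zpow]

theorem main_top (A : Fin D → (Matrix (Fin d) (Fin d) ℤ)ˣ) (P : Fin D → Fin m → ℤ[X])
    {f : Fin m → UnitAddTorus (Fin d) → ℂ} (hf : ∀ j, MemLp (f j) ⊤ (haarT d))
    (hg : ∀ j, (∀ᵐ x ∂(haarT d), ContinuousAt (f j) x) ∨ SingleGood (haarT d) (orb A P j)) :
    Cv (haarT d) (orb A P) f := by
  have hbd : ∀ j, ∃ C : ℝ, 0 ≤ C ∧ ∀ᵐ x ∂(haarT d), ‖f j x‖ ≤ C := by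
    intro j
    refine ⟨(eLpNormEssSup (f j) (haarT d)).toReal, ENNReal.toReal_nonneg, ?_⟩
    have h1 := (hf j).eLpNorm_lt_top
    rw [eLpNorm_exponent_top] at h1
    filter_upwards [ae_le_eLpNormEssSup (f := f j) (μ := haarT d)] with x hx
    have h2 := ENNReal.toReal_mono h1.ne hx
    rwa [toReal_enorm] at h2
  choose C hC0 hC using hbd
  have hrep : ∀ j, ∃ F : UnitAddTorus (Fin d) → ℂ, Bd F ∧ (∀ᵐ x ∂(haarT d), f j x = F x) ∧
      ((∀ᵐ x ∂(haarT d), ContinuousAt F x) ∨
      (Measurable F ∧ SingleGood (haarT d) (orb A P j))) := by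
    intro j
    rcases hg j with h | h
    · refine ⟨fun x => clampC (C j) (f j x), ⟨_, fun x => clampC_bd (hC0 j) _⟩, ?_, Or.inl ?_⟩
      · filter_upwards [hC j] with x hx
        exact (clampC_eq hx).symm
      · filter_upwards [h] with x hx
        exact (clampC_cont _).continuousAt.comp hx
    · have hm := (hf j).1.stronglyMeasurable_mk.measurable
      refine ⟨fun x => clampC (C j) ((hf j).1.mk (f j) x), ⟨_, fun x => clampC_bd (hC0 j) _⟩, ?_,
        Or.inr ⟨(clampC_cont _).measurable.comp hm, h⟩⟩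
      filter_upwards [hC j, (hf j).1.ae_eq_mk] with x hx hx'
      rw [← hx', clampC_eq hx]
  choose F hF1 hF2 hF3 using hrep
  have hmain := main_bdd A P hF1 hF3
  have heq : ∀ᵐ x ∂(haarT d), ∀ (j : Fin m) (n : ℤ), f j (orb A P j n x) = F j (orb A P j n x) := by
    rw [ae_all_iff]
    intro j
    rw [ae_all_iff]
    intro n
    exact (orb_mp A P j n).quasiMeasurePreserving.ae (hF2 j)
  filter_upwards [hmain, heq] with x hx hx'
  obtain ⟨L, hL⟩ := hx
  refine ⟨L, hL.congr fun N => ?_⟩
  congr 1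
  funext n
  exact Finset.prod_congr rfl fun j _ => (hx' j n).symm

end Pool.Agent.TH635.FB
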