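import Pool.Agent.TH635.FB.Pad
import Pool.Agent.H922R3.TA.Str

/-!
# Frequencies of polynomial toral orbits: Strassmann's theorem
-/

set_option autoImplicit false

open Finset fwdDiff Polynomial Filter Topology

namespace Pool.Agent.TH635.FB

open Pool.Agent.H922R3.TA (norm_sum_lt')

section padic

variable {p : ℕ} [Fact p.Prime]

/-- Strassmann's theorem for functions whose differences decay. -/
theorem strass' {ρ : ℝ} {D : ℕ} (hρ0 : 0 < ρ) (hρ1 : ρ < 1)
    (hρ : ρ ^ D = (p : ℝ)⁻¹) (hp : 2 * D + 1 ≤ p) (f : ℤ → ℤ)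
    (hf : ∀ k, ‖(((fwdDiff 1)^[k] f 0 : ℤ) : ℚ_[p])‖ ≤ ρ ^ k) :
    (∀ n : ℕ, f n = f 0) ∨
    ∃ K : ℕ, ∀ (v : ℤ) (s : Finset ℕ), (∀ n ∈ s, f (n : ℤ) = v) → s.card ≤ K := by
  classical
  set y : ℕ → ℤ := fun k => (fwdDiff 1)^[k] f 0 with hy
  have hnewton : ∀ n : ℕ, f (n : ℤ) = ∑ k ∈ range (n + 1), (n.choose k : ℤ) * y k := by
    intro n
    have h1 := shift_eq_sum_fwdDiff_iter (1 : ℤ) f n 0
    simp only [nsmul_eq_mul, mul_one, zero_add] at h1
    rw [h1]
  by_cases hw : ∃ k, 1 ≤ k ∧ y k ≠ 0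
  swap
  · left
    push Not at hw
    intro n
    rw [hnewton n, Finset.sum_eq_single 0]
    · simp [hy]
    · intro k _ hk
      rw [hw k (by omega), mul_zero]
    · intro h
      exact absurd (Finset.mem_range.mpr (Nat.succ_pos n)) h
  right
  let x : ℕ → ℚ_[p] := fun k => (y k : ℚ_[p]) / (k.factorial : ℚ_[p])
  have hp0 : (0 : ℝ) < p := by
    have : 0 < p := by omega
    exact_mod_cast this
  have hxle : ∀ k, ‖x k‖ ≤ ρ ^ (k / 2) := by
    intro k
    have hf0 : (k.factorial : ℚ_[p]) ≠ 0 := by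
      exact_mod_cast k.factorial_ne_zero
    show ‖_ / _‖ ≤ _
    rw [norm_div, Padic.norm_eq_zpow_neg_valuation hf0, Padic.valuation_natCast, zpow_neg,
      div_inv_eq_mul, zpow_natCast]
    set v := padicValNat p k.factorial with hvd
    have hv : 2 * D * v ≤ k := by
      have h1 := sub_one_mul_padicValNat_factorial (p := p) k
      rw [← hvd] at h1
      have h2 : 2 * D * v ≤ (p - 1) * v := Nat.mul_le_mul_right _ (by omega)
      rw [h1] at h2
      exact h2.trans (Nat.sub_le _ _)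
    have e1 : (p : ℝ) ^ v * ρ ^ (D * v) = 1 := by
      rw [pow_mul, hρ, ← mul_pow, mul_inv_cancel₀ hp0.ne', one_pow]
    have hv2 : 2 * (D * v) ≤ k := by
      rw [← mul_assoc]
      exact hv
    calc ‖((y k : ℤ) : ℚ_[p])‖ * (p : ℝ) ^ v ≤ ρ ^ k * (p : ℝ) ^ v :=
          mul_le_mul_of_nonneg_right (hf k) (by positivity)
      _ = ρ ^ (k - D * v) * ((p : ℝ) ^ v * ρ ^ (D * v)) := by
          have e2 : ρ ^ k = ρ ^ (k - D * v) * ρ ^ (D * v) := by
            rw [← pow_add]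
            congr 1
            omega
          rw [e2]
          ring
      _ = ρ ^ (k - D * v) := by rw [e1, mul_one]
      _ ≤ ρ ^ (k / 2) := pow_le_pow_of_le_one hρ0.le hρ1.le (by omega)
  obtain ⟨k₁, hk₁, hwk₁⟩ := hw
  have hx1 : 0 < ‖x k₁‖ := by
    rw [norm_pos_iff]
    show _ / _ ≠ 0
    have hf : (k₁.factorial : ℚ_[p]) ≠ 0 := by
      exact_mod_cast k₁.factorial_ne_zero
    have hw0 : (y k₁ : ℚ_[p]) ≠ 0 := by exact_mod_cast hwk₁
    exact div_ne_zero hw0 hf
  have hfin : ∃ N, ∀ k, N ≤ k → ‖x k‖ < ‖x k₁‖ := by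
    have h1 : Tendsto (fun k : ℕ => ρ ^ (k / 2)) atTop (𝓝 0) := by
      have h2 : Tendsto (fun k : ℕ => ρ ^ k) atTop (𝓝 0) :=
        tendsto_pow_atTop_nhds_zero_of_lt_one hρ0.le hρ1
      exact h2.comp (Nat.tendsto_div_const_atTop (by norm_num))
    obtain ⟨N, hN⟩ := eventually_atTop.mp ((tendsto_order.mp h1).2 _ hx1)
    exact ⟨N, fun k hk => (hxle k).trans_lt (hN k hk)⟩
  obtain ⟨N, hN⟩ := hfin
  have hk₁N : k₁ < N := by
    by_contra hcon
    exact lt_irrefl _ (hN k₁ (not_lt.mp hcon))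
  -- the last maximum
  obtain ⟨k₂, hk₂, hk₂max⟩ := Finset.exists_max_image (Finset.Ico 1 N) (fun k => ‖x k‖)
    ⟨k₁, Finset.mem_Ico.mpr ⟨hk₁, hk₁N⟩⟩
  have hne : ((Finset.Ico 1 N).filter fun k => ‖x k₂‖ ≤ ‖x k‖).Nonempty :=
    ⟨k₂, Finset.mem_filter.mpr ⟨hk₂, le_rfl⟩⟩
  set K := ((Finset.Ico 1 N).filter fun k => ‖x k₂‖ ≤ ‖x k‖).max' hne with hK
  have hKmem := Finset.max'_mem _ hne
  rw [← hK, Finset.mem_filter, Finset.mem_Ico] at hKmem
  obtain ⟨⟨hK1, hKN⟩, hKx⟩ := hKmem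
  have hx₂ : ‖x k₁‖ ≤ ‖x k₂‖ := hk₂max k₁ (Finset.mem_Ico.mpr ⟨hk₁, hk₁N⟩)
  have hlast : ∀ k, K < k → ‖x k‖ < ‖x K‖ := by
    intro k hk
    rcases lt_or_ge k N with hkN | hkN
    · by_contra hcon
      rw [not_lt] at hcon
      have : k ≤ K := Finset.le_max' _ k (Finset.mem_filter.mpr
        ⟨Finset.mem_Ico.mpr ⟨by omega, hkN⟩, hKx.trans hcon⟩)
      omega
    · exact (hN k hkN).trans_le (hx₂.trans hKx)
  have hxK : 0 < ‖x K‖ := hx1.trans_le (hx₂.trans hKx)
  refine ⟨K, fun v s hs => ?_⟩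
  by_contra hcard
  rw [not_le] at hcard
  obtain ⟨s', hs's, hs'c⟩ := Finset.exists_subset_card_eq (show K + 1 ≤ s.card by omega)
  obtain ⟨L, hL⟩ : ∃ L, K ≤ L ∧ ∀ n ∈ s', n ≤ L :=
    ⟨max K (s'.sup id), le_max_left _ _, fun n hn => (Finset.le_sup (f := id) hn).trans
      (le_max_right _ _)⟩
  let P : ℤ[X] := ∏ n ∈ s', (X - C (n : ℤ))
  have hPm : P.Monic := monic_prod_of_monic _ _ fun n _ => monic_X_sub_C _
  have hPd : P.natDegree = K + 1 := by
    rw [natDegree_prod_of_monic _ _ fun n _ => monic_X_sub_C _,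
      Finset.sum_congr rfl fun n _ => natDegree_X_sub_C _]
    simp [hs'c]
  have hPdeg : P.degree = ((K + 1 : ℕ) : WithBot ℕ) := by
    rw [degree_eq_natDegree hPm.ne_zero, hPd]
  let R : ℕ → ℤ[X] := fun k => descPochhammer ℤ k %ₘ P
  have hRd : ∀ k, (R k).degree < ((K + 1 : ℕ) : WithBot ℕ) := fun k => by
    rw [← hPdeg]
    exact degree_modByMonic_lt _ hPm
  have hRe : ∀ k, ∀ n ∈ s', (R k).eval (n : ℤ) = (k.factorial * n.choose k : ℕ) := by
    intro k n hn
    have h1 := modByMonic_add_div (descPochhammer ℤ k) P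
    have h2 := congrArg (Polynomial.eval (n : ℤ)) h1
    have h3 : P.eval (n : ℤ) = 0 := by
      rw [eval_prod]
      exact Finset.prod_eq_zero hn (by simp)
    rw [eval_add, eval_mul, h3, zero_mul, add_zero, descPochhammer_eval_eq_descFactorial,
      Nat.descFactorial_eq_factorial_mul_choose] at h2
    exact h2
  have hRlt : ∀ k, k < K → (R k).coeff K = 0 := by
    intro k hk
    have h1 : R k = descPochhammer ℤ k := by
      apply (modByMonic_eq_self_iff hPm).mpr
      rw [hPdeg, degree_eq_natDegree (monic_descPochhammer ℤ k).ne_zero, descPochhammer_natDegree]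
      exact_mod_cast (by omega : k < K + 1)
    rw [h1]
    apply coeff_eq_zero_of_natDegree_lt
    rw [descPochhammer_natDegree]
    exact hk
  have hReq : (R K).coeff K = 1 := by
    have h1 : R K = descPochhammer ℤ K := by
      apply (modByMonic_eq_self_iff hPm).mpr
      rw [hPdeg, degree_eq_natDegree (monic_descPochhammer ℤ K).ne_zero, descPochhammer_natDegree]
      exact_mod_cast (by omega : K < K + 1)
    rw [h1]
    have h2 := monic_descPochhammer ℤ K
    rw [Monic, leadingCoeff, descPochhammer_natDegree] at h2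
    exact h2
  let F : ℚ_[p][X] := ∑ k ∈ Finset.range (L + 1), C (x k) * (R k).map (Int.castRingHom ℚ_[p])
  have hFe : ∀ n ∈ s', F.eval ((n : ℕ) : ℚ_[p]) = (v : ℚ_[p]) := by
    intro n hn
    have h1 := hs n (hs's hn)
    rw [hnewton n] at h1
    have h2 : ∀ k, (C (x k) * (R k).map (Int.castRingHom ℚ_[p])).eval ((n : ℕ) : ℚ_[p]) =
        (((n.choose k : ℤ) * y k : ℤ) : ℚ_[p]) := by
      intro k
      have h3 : ((n : ℕ) : ℚ_[p]) = (Int.castRingHom ℚ_[p]) (n : ℤ) := by simp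
      rw [eval_mul, eval_C, h3, eval_map, eval₂_hom, hRe k n hn]
      have hf : (k.factorial : ℚ_[p]) ≠ 0 := by exact_mod_cast k.factorial_ne_zero
      show (y k : ℚ_[p]) / (k.factorial : ℚ_[p]) * _ = _
      push_cast
      simp only [eq_intCast]
      field_simp
      push_cast
      ring
    rw [eval_finsetSum, Finset.sum_congr rfl fun k _ => h2 k, ← h1]
    push_cast
    symm
    apply Finset.sum_subset
    · intro k hk
      have := hL.2 n hn
      rw [Finset.mem_range] at hk ⊢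
      omega
    · intro k _ hk
      rw [Finset.mem_range, not_lt] at hk
      rw [Nat.choose_eq_zero_of_lt (by omega)]
      simp
  have hFd : F.degree < ((K + 1 : ℕ) : WithBot ℕ) := by
    apply (degree_sum_le _ _).trans_lt
    rw [Finset.sup_lt_iff (WithBot.bot_lt_coe _)]
    intro k _
    refine lt_of_le_of_lt ?_ (hRd k)
    refine (degree_mul_le _ _).trans ?_
    calc (C (x k)).degree + ((R k).map (Int.castRingHom ℚ_[p])).degree ≤ 0 + (R k).degree :=
          add_le_add degree_C_le degree_map_le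
      _ = (R k).degree := zero_add _
  have hcs : (s'.image fun n : ℕ => ((n : ℕ) : ℚ_[p])).card = K + 1 := by
    rw [Finset.card_image_of_injective _ Nat.cast_injective, hs'c]
  have hFv : F = C (v : ℚ_[p]) := by
    apply eq_of_degrees_lt_of_eval_finset_eq (s'.image fun n : ℕ => ((n : ℕ) : ℚ_[p]))
    · rw [hcs]
      exact hFd
    · rw [hcs]
      exact degree_C_le.trans_lt (by exact_mod_cast Nat.succ_pos K)
    · intro y hy
      obtain ⟨n, hn, rfl⟩ := Finset.mem_image.mp hy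
      rw [hFe n hn, eval_C]
  have hcoef := congrArg (fun Q : ℚ_[p][X] => Q.coeff K) hFv
  rw [coeff_C_of_ne_zero (by omega), finsetSum_coeff] at hcoef
  simp only [coeff_C_mul, coeff_map, eq_intCast] at hcoef
  rw [← Finset.sum_erase_add _ _ (Finset.mem_range.mpr (show K < L + 1 by have := hL.1; omega)),
    hReq] at hcoef
  have h5 : x K = -∑ k ∈ (Finset.range (L + 1)).erase K, x k * ((R k).coeff K : ℚ_[p]) := by
    have : ((1 : ℤ) : ℚ_[p]) = 1 := by simp
    rw [this, mul_one] at hcoef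
    exact eq_neg_of_add_eq_zero_right hcoef
  have h6 : ‖x K‖ < ‖x K‖ := by
    conv_lhs => rw [h5, norm_neg]
    apply norm_sum_lt' _ _ hxK
    intro k hk
    have hkK : k ≠ K := (Finset.mem_erase.mp hk).1
    rcases lt_or_gt_of_ne hkK with h | h
    · rw [hRlt k h]
      simpa using hxK
    · rw [norm_mul]
      calc ‖x k‖ * ‖((R k).coeff K : ℚ_[p])‖ ≤ ‖x k‖ * 1 :=
            mul_le_mul_of_nonneg_left (Padic.norm_int_le_one _) (norm_nonneg _)
        _ < ‖x K‖ := by rw [mul_one]; exact hlast k h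
  exact lt_irrefl _ h6

theorem iter_entry {d : ℕ} (F : ℤ → Matrix (Fin d) (Fin d) ℤ) (a b : Fin d) (k : ℕ) :
    ∀ n, (fwdDiff 1)^[k] (fun n => F n a b) n = ((fwdDiff 1)^[k] F n) a b := by
  induction k generalizing F with
  | zero => intro n; rfl
  | succ k ih =>
    intro n
    rw [Function.iterate_succ_apply, Function.iterate_succ_apply, ← ih (fwdDiff 1 F) n]
    rfl

end padic

variable {d : ℕ}

/-- The matrices `A_1^(P_1j(n)) ... A_D^(P_Dj(n))`. -/
def mats {D m : ℕ} (A : Fin D → (Matrix (Fin d) (Fin d) ℤ)ˣ) (P : Fin D → Fin m → ℤ[X])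
    (j : Fin m) (n : ℤ) : (Matrix (Fin d) (Fin d) ℤ)ˣ :=
  (List.ofFn fun i => A i ^ ((P i j).eval n)).prod

/-- The frequencies. -/
def freq {D m : ℕ} (A : Fin D → (Matrix (Fin d) (Fin d) ℤ)ˣ) (P : Fin D → Fin m → ℤ[X])
    (v : Fin m → Fin d → ℤ) (n : ℤ) : Fin d → ℤ :=
  ∑ j, ((mats A P j n : (Matrix (Fin d) (Fin d) ℤ)ˣ) :
    Matrix (Fin d) (Fin d) ℤ).transpose.mulVec (v j)

theorem freq_classes {D m : ℕ} (A : Fin D → (Matrix (Fin d) (Fin d) ℤ)ˣ)
    (P : Fin D → Fin m → ℤ[X]) (v : Fin m → Fin d → ℤ) :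
    ∃ q : ℕ, 1 ≤ q ∧ ∀ r : ℕ,
      (∀ n : ℕ, freq A P v ((r + q * n : ℕ) : ℤ) = freq A P v (r : ℤ)) ∨
      ∃ K : ℕ, ∀ (w : Fin d → ℤ) (s : Finset ℕ),
        (∀ n ∈ s, freq A P v ((r + q * n : ℕ) : ℤ) = w) → s.card ≤ K := by
  classical
  set E : ℕ := 1 + ∑ i, ∑ j, (P i j).natDegree with hE
  have hE1 : 1 ≤ E := by omega
  have hdeg : ∀ i j, (P i j).natDegree ≤ E := by
    intro i j
    have h1 : (P i j).natDegree ≤ ∑ j, (P i j).natDegree :=
      Finset.single_le_sum (f := fun j => (P i j).natDegree) (fun _ _ => Nat.zero_le _)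
        (Finset.mem_univ j)
    have h2 : ∑ j, (P i j).natDegree ≤ ∑ i, ∑ j, (P i j).natDegree :=
      Finset.single_le_sum (f := fun i => ∑ j, (P i j).natDegree) (fun _ _ => Nat.zero_le _)
        (Finset.mem_univ i)
    omega
  obtain ⟨p, hp, hpp⟩ := Nat.exists_infinite_primes (2 * E + 1)
  have : Fact p.Prime := ⟨hpp⟩
  have : NeZero p := ⟨hpp.ne_zero⟩
  have hp0 : (0 : ℝ) < p := by exact_mod_cast hpp.pos
  have hp1 : (1 : ℝ) < p := by exact_mod_cast hpp.one_lt
  set ρ : ℝ := ((p : ℝ)⁻¹) ^ ((E : ℝ)⁻¹) with hρd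
  have hρ0 : 0 < ρ := Real.rpow_pos_of_pos (by positivity) _
  have hρ1 : ρ < 1 := Real.rpow_lt_one (by positivity) (inv_lt_one_of_one_lt₀ hp1) (by positivity)
  have hρ : ρ ^ E = (p : ℝ)⁻¹ := by
    rw [hρd, ← Real.rpow_natCast, ← Real.rpow_mul (by positivity),
      inv_mul_cancel₀ (by exact_mod_cast (by omega : E ≠ 0)), Real.rpow_one]
  let G := (Matrix (Fin d) (Fin d) (ZMod p))ˣ
  set q := Fintype.card G with hq
  have hq1 : 1 ≤ q := Fintype.card_pos
  have hred : ∀ V : (Matrix (Fin d) (Fin d) ℤ)ˣ, red p d (V ^ (q : ℤ)) = 1 := by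
    intro V
    rw [zpow_natCast, map_pow]
    exact pow_card_eq_one
  refine ⟨q, hq1, fun r => ?_⟩
  have hPA : ∀ j, PA p ρ (fun n => ((mats A P j ((r : ℤ) + q * n) :
      (Matrix (Fin d) (Fin d) ℤ)ˣ) : Matrix (Fin d) (Fin d) ℤ)) := by
    intro j
    have h1 := PA.list (p := p) hρ0.le
      (List.ofFn fun i => fun n : ℤ => A i ^ ((P i j).eval ((r : ℤ) + q * n))) (by
        intro F hF
        rw [List.mem_ofFn] at hF
        obtain ⟨i, rfl⟩ := hF
        exact PA.poly hρ0.le hρ1.le hρ (by exact_mod_cast (by omega : q ≠ 0)) (hred (A i))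
          (hdeg i j) r)
    refine (iff_of_eq ?_).mp h1
    congr 1
    funext n
    unfold mats
    rw [List.map_ofFn]
    rfl
  -- scalar components
  have hcomp : ∀ a : Fin d, ∀ k,
      ‖(((fwdDiff 1)^[k] (fun n : ℤ => freq A P v ((r : ℤ) + q * n) a) 0 : ℤ) : ℚ_[p])‖ ≤
        ρ ^ k := by
    intro a k
    have e1 : (fun n : ℤ => freq A P v ((r : ℤ) + q * n) a) =
        ∑ j, ∑ b, (v j b) • (fun n : ℤ => ((mats A P j ((r : ℤ) + q * n) :
          (Matrix (Fin d) (Fin d) ℤ)ˣ) : Matrix (Fin d) (Fin d) ℤ) b a) := by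
      funext n
      simp only [freq, Finset.sum_apply, Matrix.mulVec, dotProduct, Matrix.transpose_apply,
        Pi.smul_apply, smul_eq_mul]
      exact Finset.sum_congr rfl fun j _ => Finset.sum_congr rfl fun b _ => mul_comm _ _
    rw [e1, fwdDiff_iter_finsetSum, Finset.sum_apply, Int.cast_sum]
    apply norm_sum_le' _ _ (by positivity)
    intro j _
    rw [fwdDiff_iter_finsetSum, Finset.sum_apply, Int.cast_sum]
    apply norm_sum_le' _ _ (by positivity)
    intro b _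
    rw [fwdDiff_iter_const_smul, Pi.smul_apply, smul_eq_mul, Int.cast_mul, norm_mul]
    calc ‖((v j b : ℤ) : ℚ_[p])‖ * _ ≤ 1 * ρ ^ k := by
          apply mul_le_mul (Padic.norm_int_le_one _) _ (norm_nonneg _) zero_le_one
          rw [iter_entry]
          exact hPA j k 0 b a
      _ = ρ ^ k := one_mul _
  by_cases hall : ∀ a : Fin d, ∀ n : ℕ, freq A P v ((r : ℤ) + q * (n : ℤ)) a =
      freq A P v ((r : ℤ) + q * (0 : ℤ)) a
  · left
    intro n
    funext a
    have := hall a n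
    push_cast
    rw [mul_zero, add_zero] at this
    exact this
  · right
    push Not at hall
    obtain ⟨a, n₀, hn₀⟩ := hall
    rcases strass' hρ0 hρ1 hρ hp (fun n : ℤ => freq A P v ((r : ℤ) + q * n) a) (hcomp a) with
      h | ⟨K, hK⟩
    · exact absurd (h n₀) hn₀
    · refine ⟨K, fun w s hs => hK (w a) s fun n hn => ?_⟩
      have := congrFun (hs n hn) a
      push_cast at this
      exact this

end Pool.Agent.TH635.FB
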