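import Pool.Agent.TH635.FB.Clos
import Pool.Agent.TH635.FB.Freq
import Pool.Agent.H922R3.TA.Main

/-!
# Polynomial toral orbits: continuous functions
-/

set_option autoImplicit false

open Filter Topology MeasureTheory UnitAddTorus Polynomial

noncomputable section

namespace Pool.Agent.TH635.FB

open Pool.Agent.H922R3.TA (toralMap haarT toralMap_mul toral_cont toral_mp mFourier_toral
  mFourier_sum ae_zero avg_classes)

variable {d : ℕ}

theorem toralMap_one (x : UnitAddTorus (Fin d)) :
    toralMap (1 : Matrix (Fin d) (Fin d) ℤ) x = x := by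
  funext i
  show ∑ k, (1 : Matrix (Fin d) (Fin d) ℤ) i k • x k = x i
  rw [Finset.sum_eq_single i]
  · rw [Matrix.one_apply_eq, one_smul]
  · intro k _ hk
    rw [Matrix.one_apply_ne (Ne.symm hk), zero_smul]
  · intro h
    exact absurd (Finset.mem_univ i) h

/-- The automorphism `x ↦ A x` of the torus `𝕋^d` given by a matrix `A ∈ GL_d(ℤ)`. -/
def toralAut : (Matrix (Fin d) (Fin d) ℤ)ˣ →* Equiv.Perm (UnitAddTorus (Fin d)) where
  toFun A :=
    { toFun := toralMap (A : Matrix (Fin d) (Fin d) ℤ)
      invFun := toralMap ((A⁻¹ : (Matrix (Fin d) (Fin d) ℤ)ˣ) : Matrix (Fin d) (Fin d) ℤ)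
      left_inv := fun x => by
        rw [← toralMap_mul, ← Units.val_mul, inv_mul_cancel, Units.val_one, toralMap_one]
      right_inv := fun x => by
        rw [← toralMap_mul, ← Units.val_mul, mul_inv_cancel, Units.val_one, toralMap_one] }
  map_one' := by
    ext1 x
    exact toralMap_one x
  map_mul' A B := by
    ext1 x
    exact toralMap_mul _ _ x

theorem toralAut_apply (A : (Matrix (Fin d) (Fin d) ℤ)ˣ) (x : UnitAddTorus (Fin d)) :
    toralAut A x = toralMap (A : Matrix (Fin d) (Fin d) ℤ) x := rfl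

theorem det_ne (A : (Matrix (Fin d) (Fin d) ℤ)ˣ) :
    (A : Matrix (Fin d) (Fin d) ℤ).det ≠ 0 := by
  have h : IsUnit (A : Matrix (Fin d) (Fin d) ℤ).det :=
    (Matrix.isUnit_iff_isUnit_det _).mp A.isUnit
  exact h.ne_zero

theorem toralAut_mp (A : (Matrix (Fin d) (Fin d) ℤ)ˣ) :
    MeasurePreserving (toralAut A) (haarT d) (haarT d) := toral_mp (det_ne A)

theorem toralAut_cont (A : (Matrix (Fin d) (Fin d) ℤ)ˣ) : Continuous (toralAut A) :=
  toral_cont _

/-- The maps `T_1^(P_1j(n)) ... T_D^(P_Dj(n))`. -/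
def orb {D m : ℕ} (A : Fin D → (Matrix (Fin d) (Fin d) ℤ)ˣ) (P : Fin D → Fin m → ℤ[X])
    (j : Fin m) (n : ℤ) : UnitAddTorus (Fin d) → UnitAddTorus (Fin d) :=
  toralAut (mats A P j n)

variable {D m : ℕ} {A : Fin D → (Matrix (Fin d) (Fin d) ℤ)ˣ} {P : Fin D → Fin m → ℤ[X]}

theorem prod_chars (v : Fin m → Fin d → ℤ) (n : ℤ) (x : UnitAddTorus (Fin d)) :
    ∏ j, mFourier (v j) (orb A P j n x) = mFourier (freq A P v n) x := by
  rw [freq, ← mFourier_sum]
  apply Finset.prod_congr rfl
  intro j _
  exact mFourier_toral _ _ _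

theorem norm_mF (v : Fin d → ℤ) (x : UnitAddTorus (Fin d)) : ‖mFourier v x‖ ≤ 1 := by
  calc ‖mFourier v x‖ ≤ ‖mFourier v‖ := ContinuousMap.norm_coe_le_norm _ x
    _ = 1 := mFourier_norm

/-- one-sided averages of characters -/
theorem one_side (A : Fin D → (Matrix (Fin d) (Fin d) ℤ)ˣ) (P : Fin D → Fin m → ℤ[X])
    (v : Fin m → Fin d → ℤ) :
    ∀ᵐ x ∂(haarT d), ∃ L, Tendsto (fun N : ℕ => (N : ℂ)⁻¹ *
      ∑ n ∈ Finset.range N, mFourier (freq A P v (n : ℤ)) x) atTop (𝓝 L) := by
  obtain ⟨q, hq, hcl⟩ := freq_classes A P v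
  have hr : ∀ r : ℕ, ∀ᵐ x ∂(haarT d), ∃ L, Tendsto (fun N : ℕ => (N : ℂ)⁻¹ *
      ∑ n ∈ Finset.range N, mFourier (freq A P v ((r + q * n : ℕ) : ℤ)) x) atTop (𝓝 L) := by
    intro r
    rcases hcl r with h | ⟨K, hK⟩
    · refine Eventually.of_forall fun x => ⟨mFourier (freq A P v (r : ℤ)) x, ?_⟩
      apply tendsto_const_nhds.congr'
      filter_upwards [eventually_ge_atTop 1] with N hN
      have hN0 : (N : ℂ) ≠ 0 := by
        have : N ≠ 0 := by omega
        exact_mod_cast this
      rw [Finset.sum_congr rfl fun n _ => by rw [h n], Finset.sum_const, Finset.card_range,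
        nsmul_eq_mul, ← mul_assoc, inv_mul_cancel₀ hN0, one_mul]
    · filter_upwards [ae_zero (fun n => freq A P v ((r + q * n : ℕ) : ℤ)) hK] with x hx
      exact ⟨0, hx⟩
  filter_upwards [ae_all_iff.mpr hr] with x hx
  exact avg_classes (u := fun n : ℕ => mFourier (freq A P v (n : ℤ)) x) (C := 1)
    (fun n => norm_mF _ _) hq hx

theorem freq_neg (A : Fin D → (Matrix (Fin d) (Fin d) ℤ)ˣ) (P : Fin D → Fin m → ℤ[X])
    (v : Fin m → Fin d → ℤ) (n : ℤ) :
    freq A (fun i j => (P i j).comp (-X)) v n = freq A P v (-n) := by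
  simp only [freq, mats, eval_comp, eval_neg, eval_X]

theorem Cv_chars (A : Fin D → (Matrix (Fin d) (Fin d) ℤ)ˣ) (P : Fin D → Fin m → ℤ[X])
    {F : Fin m → UnitAddTorus (Fin d) → ℂ} (hF : ∀ j, ∃ v, F j = mFourier v) :
    Cv (haarT d) (orb A P) F := by
  choose v hv using hF
  filter_upwards [one_side A P v, one_side A (fun i j => (P i j).comp (-X)) v] with x h1 h2
  obtain ⟨L, hL⟩ := h1
  obtain ⟨M, hM⟩ := h2
  refine ⟨(L + M) / 2, ?_⟩
  have h := av_of_sides (u := fun n : ℤ => mFourier (freq A P v n) x) (C := 1)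
    (norm_mF _ _) hL (hM.congr fun N => by
      congr 1
      exact Finset.sum_congr rfl fun n _ => by rw [freq_neg])
  refine h.congr fun N => ?_
  congr 1
  funext n
  rw [← prod_chars]
  exact Finset.prod_congr rfl fun j _ => by rw [hv j]

/-- products of continuous functions -/
theorem Cv_cont (A : Fin D → (Matrix (Fin d) (Fin d) ℤ)ˣ) (P : Fin D → Fin m → ℤ[X])
    {F : Fin m → UnitAddTorus (Fin d) → ℂ} (hF : ∀ j, Continuous (F j)) :
    Cv (haarT d) (orb A P) F := by
  have hbd : ∀ p : C(UnitAddTorus (Fin d), ℂ), Bd p := fun p =>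
    ⟨‖p‖, fun x => ContinuousMap.norm_coe_le_norm p x⟩
  have key : ∀ S : Finset (Fin m), ∀ F : Fin m → C(UnitAddTorus (Fin d), ℂ),
      (∀ j, j ∉ S → ∃ v, F j = mFourier v) → Cv (haarT d) (orb A P) (fun j => F j) := by
    intro S
    induction S using Finset.induction_on with
    | empty =>
      intro F h
      apply Cv_chars
      intro j
      obtain ⟨v, hv⟩ := h j (Finset.notMem_empty j)
      exact ⟨v, by rw [hv]⟩
    | insert j S hj ih =>
      intro F h
      have hup : ∀ p : C(UnitAddTorus (Fin d), ℂ),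
          (fun l => ((Function.update F j p) l : UnitAddTorus (Fin d) → ℂ)) =
            Function.update (fun l => (F l : UnitAddTorus (Fin d) → ℂ)) j p := by
        intro p
        funext l
        by_cases hl : l = j
        · subst hl
          rw [Function.update_self, Function.update_self]
        · rw [Function.update_of_ne hl, Function.update_of_ne hl]
      have hspan : ∀ p ∈ Submodule.span ℂ (Set.range (mFourier (d := Fin d))),
          Cv (haarT d) (orb A P)
            (Function.update (fun l => (F l : UnitAddTorus (Fin d) → ℂ)) j p) := by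
        intro p hp
        refine Submodule.span_induction (p := fun (p : C(UnitAddTorus (Fin d), ℂ)) _ =>
          Cv (haarT d) (orb A P)
            (Function.update (fun l => (F l : UnitAddTorus (Fin d) → ℂ)) j p)) ?_ ?_ ?_ ?_ hp
        · rintro _ ⟨v, rfl⟩
          rw [← hup]
          apply ih
          intro l hl
          by_cases hlj : l = j
          · subst hlj
            exact ⟨v, by rw [Function.update_self]⟩
          · rw [Function.update_of_ne hlj]
            exact h l (by
              rw [Finset.mem_insert]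
              tauto)
        · exact Cv_zero
        · intro p q _ _ h1 h2
          exact Cv_add h1 h2
        · intro c p _ h1
          exact Cv_smul c h1
      have e : (fun l => (F l : UnitAddTorus (Fin d) → ℂ)) =
          Function.update (fun l => (F l : UnitAddTorus (Fin d) → ℂ)) j (F j) :=
        (Function.update_eq_self j _).symm
      rw [e]
      apply Cv_closed_sup (fun l => hbd (F l))
      intro ε hε
      have hmem : F j ∈ (Submodule.span ℂ (Set.range (mFourier (d := Fin d)))).topologicalClosure := by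
        rw [span_mFourier_closure_eq_top]
        exact Submodule.mem_top
      rw [← SetLike.mem_coe, Submodule.topologicalClosure_coe, Metric.mem_closure_iff] at hmem
      obtain ⟨p, hp, hgp⟩ := hmem ε hε
      refine ⟨p, fun x => ?_, hspan p hp⟩
      have h2 := ContinuousMap.dist_apply_le_dist (f := F j) (g := p) x
      rw [dist_eq_norm] at h2
      exact h2.trans hgp.le
  exact key Finset.univ (fun j => ⟨F j, hF j⟩) fun j hj => absurd (Finset.mem_univ j) hj

/-- one continuous function -/
theorem single_cont (A : Fin D → (Matrix (Fin d) (Fin d) ℤ)ˣ) (P : Fin D → Fin m → ℤ[X])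
    (j : Fin m) {K : UnitAddTorus (Fin d) → ℝ} (hK : Continuous K) :
    ∀ᵐ x ∂(haarT d), ∃ L : ℝ, Tendsto (fun N => avr N fun n => K (orb A P j n x)) atTop (𝓝 L) := by
  have h := Cv_cont A (fun i (_ : Fin 1) => P i j) (F := fun _ x => (K x : ℂ))
    (fun _ => Complex.continuous_ofReal.comp hK)
  filter_upwards [h] with x hx
  obtain ⟨L, hL⟩ := hx
  refine ⟨L.re, ?_⟩
  have h1 := (Complex.continuous_re.tendsto L).comp hL
  refine h1.congr fun N => ?_
  simp only [Function.comp_apply, av, avr, Fin.prod_univ_one]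
  have e : ((2 * N + 1 : ℕ) : ℂ)⁻¹ = (((2 * N + 1 : ℕ) : ℝ)⁻¹ : ℝ) := by push_cast; rfl
  rw [e, ← Complex.ofReal_sum, ← Complex.ofReal_mul, Complex.ofReal_re]
  rfl

end Pool.Agent.TH635.FB
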